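import Pool.Agent.H65.CRZ.TL
import Pool.Agent.H34.DZ.T3

/-! Row TL of `crz_modules`: the three lines theorem for families of functions. -/

set_option autoImplicit false

open Complex Set Filter

namespace Pool.Agent.H66.CRZ

open Pool.Agent.H65.CRZ

theorem growth (p : ℝ) (n : ℕ) (hn : p ≤ n) (v : ℝ) :
    (1 + |v|) ^ p * Real.exp (-(v ^ 2)) ≤ Real.exp ((n : ℝ) ^ 2 / 4) := by
  have h1 : (1 : ℝ) ≤ 1 + |v| := by
    have := abs_nonneg v
    linarith
  have h2 : (1 + |v|) ^ p ≤ (1 + |v|) ^ n := by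
    rw [← Real.rpow_natCast]
    exact Real.rpow_le_rpow_of_exponent_le h1 hn
  calc (1 + |v|) ^ p * Real.exp (-(v ^ 2)) ≤ (1 + |v|) ^ n * Real.exp (-(v ^ 2)) := by gcongr
    _ ≤ _ := Pool.Agent.H34.DZ.gauss_nat n v

theorem pf_TL : T_TL := by
  intro p W hp hW
  obtain ⟨N, hN⟩ := exists_nat_ge p
  refine ⟨Real.exp (2 * W ^ 2) * Real.exp ((N : ℝ) ^ 2 / 4), ?_, ?_⟩
  · rw [← Real.exp_add]
    exact Real.one_le_exp (by positivity)
  intro ι _ f a b t M hab hbW hd hgr hA hB σ hσa hσb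
  set K := Real.exp (2 * W ^ 2) * Real.exp ((N : ℝ) ^ 2 / 4) with hK
  have hK0 : 0 < K := by positivity
  set z0 : ℂ := σ + t * I with hz0
  have hz0re : z0.re = σ := by simp [hz0]
  have hz0im : z0.im = t := by simp [hz0]
  set S : ℝ := ∑ i, ‖f i z0‖ ^ 2 with hS
  have hS0 : 0 ≤ S := Finset.sum_nonneg fun i _ => by positivity
  have hM0 : 0 ≤ M := by
    have h1 := hA t
    simp only [sub_self, abs_zero, add_zero, Real.one_rpow, mul_one] at h1
    exact le_trans (Finset.sum_nonneg fun i _ => by positivity) h1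
  set g : ℂ → ℂ := fun s =>
    (∑ i, (starRingEnd ℂ) (f i z0) * f i s) * Complex.exp ((s - z0) ^ 2) with hg
  have hexp : ∀ s : ℂ, a ≤ s.re → s.re ≤ b →
      ‖Complex.exp ((s - z0) ^ 2)‖ ≤ Real.exp (W ^ 2) * Real.exp (-((s.im - t) ^ 2)) := by
    intro s h1 h2
    rw [Complex.norm_exp, ← Real.exp_add]
    apply Real.exp_le_exp.mpr
    have e : ((s - z0) ^ 2).re = (s.re - σ) ^ 2 - (s.im - t) ^ 2 := by
      rw [sq, Complex.mul_re, hz0]
      simp
      ring
    rw [e]
    have h3 : |s.re - σ| ≤ W := by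
      rw [abs_le]; constructor <;> linarith
    have h4 : (s.re - σ) ^ 2 ≤ W ^ 2 := by
      rw [← sq_abs]
      exact pow_le_pow_left₀ (abs_nonneg _) h3 2
    linarith
  have hgsq : ∀ s : ℂ, ‖∑ i, (starRingEnd ℂ) (f i z0) * f i s‖ ^ 2 ≤ S * ∑ i, ‖f i s‖ ^ 2 := by
    intro s
    have h1 : ‖∑ i, (starRingEnd ℂ) (f i z0) * f i s‖ ≤ ∑ i, ‖f i z0‖ * ‖f i s‖ := by
      refine (norm_sum_le _ _).trans (le_of_eq ?_)
      refine Finset.sum_congr rfl fun i _ => ?_
      rw [norm_mul, RCLike.norm_conj]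
    calc ‖∑ i, (starRingEnd ℂ) (f i z0) * f i s‖ ^ 2 ≤ (∑ i, ‖f i z0‖ * ‖f i s‖) ^ 2 := by gcongr
      _ ≤ (∑ i, ‖f i z0‖ ^ 2) * ∑ i, ‖f i s‖ ^ 2 := Finset.sum_mul_sq_le_sq_mul_sq _ _ _
  have hdiff : ∀ s : ℂ, a ≤ s.re → s.re ≤ b → DifferentiableAt ℂ g s := by
    intro s h1 h2
    refine DifferentiableAt.mul ?_ (by fun_prop)
    exact DifferentiableAt.fun_sum fun i _ => (hd i s h1 h2).const_mul _
  have hDC : DiffContOnCl ℂ g (re ⁻¹' Ioo a b) := by
    refine DifferentiableOn.diffContOnCl fun z hz => ?_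
    have hcl : closure (re ⁻¹' Ioo a b) ⊆ {z : ℂ | a ≤ z.re ∧ z.re ≤ b} := by
      refine closure_minimal (fun z hz => ⟨hz.1.le, hz.2.le⟩) ?_
      exact (isClosed_le continuous_const Complex.continuous_re).inter
        (isClosed_le Complex.continuous_re continuous_const)
    exact (hdiff z (hcl hz).1 (hcl hz).2).differentiableWithinAt
  -- g is bounded in the strip
  obtain ⟨R, hR⟩ : ∃ R : ℝ, ∀ s : ℂ, a ≤ s.re → s.re ≤ b → ‖g s‖ ≤ R := by
    choose C B hCB using hgr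
    choose n hn using fun i => exists_nat_ge (B i)
    refine ⟨∑ i, ‖f i z0‖ * (|C i| * (1 + |t|) ^ n i * (Real.exp (W ^ 2) *
      Real.exp ((n i : ℝ) ^ 2 / 4))), fun s h1 h2 => ?_⟩
    have h3 : ‖g s‖ ≤ ∑ i, ‖f i z0‖ * (‖f i s‖ * ‖Complex.exp ((s - z0) ^ 2)‖) := by
      simp only [hg]
      rw [Finset.sum_mul]
      refine (norm_sum_le _ _).trans (le_of_eq ?_)
      refine Finset.sum_congr rfl fun i _ => ?_
      rw [norm_mul, norm_mul, RCLike.norm_conj, mul_assoc]
    refine h3.trans (Finset.sum_le_sum fun i _ => ?_)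
    refine mul_le_mul_of_nonneg_left ?_ (norm_nonneg _)
    have h4 := hCB i s h1 h2
    have h5 := hexp s h1 h2
    have hone : (1 : ℝ) ≤ 1 + |s.im| := by
      have := abs_nonneg s.im
      linarith
    have h6 : C i * (1 + |s.im|) ^ B i ≤ |C i| * (1 + |s.im|) ^ n i := by
      have h7 : (1 + |s.im|) ^ B i ≤ (1 + |s.im|) ^ n i := by
        rw [← Real.rpow_natCast]
        exact Real.rpow_le_rpow_of_exponent_le hone (hn i)
      calc C i * (1 + |s.im|) ^ B i ≤ |C i| * (1 + |s.im|) ^ B i := by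
            have : 0 ≤ (1 + |s.im|) ^ B i := by positivity
            exact mul_le_mul_of_nonneg_right (le_abs_self _) this
        _ ≤ _ := mul_le_mul_of_nonneg_left h7 (abs_nonneg _)
    have h8 : (1 + |s.im|) ^ n i ≤ (1 + |t|) ^ n i * (1 + |s.im - t|) ^ n i := by
      rw [← mul_pow]
      refine pow_le_pow_left₀ (by positivity) ?_ _
      have h9 : |s.im| ≤ |s.im - t| + |t| := by
        have := abs_add_le (s.im - t) t
        simpa using this
      nlinarith [abs_nonneg (s.im - t), abs_nonneg t,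
        mul_nonneg (abs_nonneg t) (abs_nonneg (s.im - t))]
    have h9 := Pool.Agent.H34.DZ.gauss_nat (n i) (s.im - t)
    calc ‖f i s‖ * ‖Complex.exp ((s - z0) ^ 2)‖
        ≤ (|C i| * ((1 + |t|) ^ n i * (1 + |s.im - t|) ^ n i)) *
          (Real.exp (W ^ 2) * Real.exp (-((s.im - t) ^ 2))) := by
          refine mul_le_mul (h4.trans (h6.trans ?_)) h5 (norm_nonneg _) (by positivity)
          exact mul_le_mul_of_nonneg_left h8 (abs_nonneg _)
      _ = |C i| * (1 + |t|) ^ n i * (Real.exp (W ^ 2) *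
          ((1 + |s.im - t|) ^ n i * Real.exp (-((s.im - t) ^ 2)))) := by ring
      _ ≤ _ := by gcongr
  -- the edges
  have edge : ∀ c : ℝ, a ≤ c → c ≤ b →
      (∀ u : ℝ, ∑ i, ‖f i (c + u * I)‖ ^ 2 ≤ M * (1 + |u - t|) ^ p) →
      ∀ z : ℂ, z.re = c → ‖g z‖ ≤ Real.sqrt (S * (K * M)) := by
    intro c h1 h2 hf z hz
    have e : z = c + z.im * I := by
      rw [← hz]; exact (Complex.re_add_im z).symm
    have h3 := hf z.im
    rw [← e] at h3
    have h4 := hexp z (by rw [hz]; exact h1) (by rw [hz]; exact h2)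
    have h5 := growth p N hN (z.im - t)
    have h6 := hgsq z
    apply Real.le_sqrt_of_sq_le
    have hE : Real.exp (W ^ 2) ^ 2 = Real.exp (2 * W ^ 2) := by
      rw [← Real.exp_nat_mul]
      norm_num
    have hv : Real.exp (-((z.im - t) ^ 2)) ≤ 1 := by
      apply Real.exp_le_one_iff.2
      have := sq_nonneg (z.im - t)
      linarith
    have hpw : 0 ≤ (1 + |z.im - t|) ^ p := by positivity
    calc ‖g z‖ ^ 2 = ‖∑ i, (starRingEnd ℂ) (f i z0) * f i z‖ ^ 2 *
          ‖Complex.exp ((z - z0) ^ 2)‖ ^ 2 := by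
          simp only [hg]
          rw [norm_mul, mul_pow]
      _ ≤ (S * (M * (1 + |z.im - t|) ^ p)) *
          (Real.exp (W ^ 2) * Real.exp (-((z.im - t) ^ 2))) ^ 2 := by
          refine mul_le_mul (h6.trans ?_) (by gcongr) (by positivity) (by positivity)
          exact mul_le_mul_of_nonneg_left h3 hS0
      _ = S * (M * (Real.exp (2 * W ^ 2) * (((1 + |z.im - t|) ^ p *
          Real.exp (-((z.im - t) ^ 2))) * Real.exp (-((z.im - t) ^ 2))))) := by
          rw [mul_pow, hE]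
          ring
      _ ≤ S * (M * (Real.exp (2 * W ^ 2) * (Real.exp ((N : ℝ) ^ 2 / 4) * 1))) := by
          gcongr
      _ = S * (K * M) := by rw [hK]; ring
  have key : ‖g z0‖ ≤ Real.sqrt (S * (K * M)) := by
    refine PhragmenLindelof.vertical_strip hDC ⟨0, by positivity, 0, ?_⟩
      (edge a le_rfl hab.le hA) (edge b hab.le le_rfl hB) (by rw [hz0re]; exact hσa)
      (by rw [hz0re]; exact hσb)
    refine Asymptotics.IsBigO.of_bound R ?_
    have hmem : ∀ᶠ z in comap (_root_.abs ∘ im) atTop ⊓ 𝓟 (re ⁻¹' Ioo a b),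
        z ∈ re ⁻¹' Ioo a b := mem_inf_of_right (mem_principal_self _)
    filter_upwards [hmem] with z hz
    have := hR z hz.1.le hz.2.le
    simpa using this
  have hgz : g z0 = (S : ℂ) := by
    simp only [hg, sub_self, ne_eq, OfNat.ofNat_ne_zero, not_false_eq_true, zero_pow,
      Complex.exp_zero, mul_one]
    rw [hS]
    push_cast
    refine Finset.sum_congr rfl fun i _ => ?_
    rw [← Complex.normSq_eq_conj_mul_self, Complex.normSq_eq_norm_sq]
    push_cast
    rfl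
  rw [hgz, Complex.norm_real, Real.norm_eq_abs, abs_of_nonneg hS0] at key
  have h1 : S ^ 2 ≤ S * (K * M) := by
    have h2 := Real.sq_sqrt (mul_nonneg hS0 (mul_nonneg hK0.le hM0))
    calc S ^ 2 ≤ Real.sqrt (S * (K * M)) ^ 2 := by gcongr
      _ = _ := h2
  rcases hS0.eq_or_lt with h2 | h2
  · rw [← h2]
    exact mul_nonneg hK0.le hM0
  · rw [sq] at h1
    exact le_of_mul_le_mul_left h1 h2

end Pool.Agent.H66.CRZ
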